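import Pool.Agent.W5h51.TP.Fin

/-!
# MP_df81ac_co: a tropicalized graph profile which is not a polyhedral cone

The definitions (`FinGraph`, `homDensity`, `profile`, `logSet`, `IsPKLimit`, `IsTrop`, `coneHull`,
`IsPolyhedralCone`) are in `Pool.Agent.W5h51.TP.Defs`.

Outline of the proof.
* `TP.Mat`: infinitely many linear inequalities of the type found by Matus for the entropies of four
  random variables, proved by adjoining conditionally independent copies of one of the variables.
* `TP.Pat`, `TP.Hom`: a graph `Q` on 13 vertices (nine core vertices and one vertex for each of the
  four random variables) whose only endomorphism is the identity. A uniformly random homomorphism from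
  `Q` to `G` turns these inequalities into inequalities between the numbers of homomorphisms to `G`
  from `Q`, from five subgraphs of `Q` and from five graphs made of two copies of `Q`.
* `TP.Tgt`, `TP.Asy`: target graphs whose vertices are labelled by finite sets show that none of the
  limits of these inequalities is implied by finitely many linear inequalities.
* `TP.Trop`, `TP.Fam`, `TP.Fin`: the Farkas lemma, existence of the tropicalization, conclusion.
-/

set_option autoImplicit false

namespace Pool.Agent.Results.MP_df81ac_co.TropNotPolyhedral

open Pool.Agent.W5h51.TP

/-- There are eleven pairwise non-isomorphic connected graphs such that the tropicalization `L` of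
their graph profile exists, is unique, equals the closure of the conical hull of the image of the
profile under the natural logarithm, and is not a polyhedral cone. -/
theorem result : ∃ C : Fin 11 → FinGraph,
    (∀ i, (C i).graph.Connected) ∧
    (Pairwise fun i j => IsEmpty ((C i).graph ≃g (C j).graph)) ∧
    ∃ L : Set (Fin 11 → ℝ), IsTrop (profile C) L ∧ (∀ L', IsTrop (profile C) L' → L' = L) ∧
      L = closure (coneHull (logSet (Real.exp 1) (profile C))) ∧ ¬ IsPolyhedralCone L :=
  main

end Pool.Agent.Results.MP_df81ac_co.TropNotPolyhedral
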